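import Mathlib
import Pool.Agent.MP_3bf391_gt.Defs
import Pool.Agent.MP_3bf391_gt.Mg.Main

namespace Pool.Agent.Results.MP_3bf391_gt.HereditarilyMetalindelof

open Pool.Agent.MP_3bf391_gt

/-- For every perfectly normal compact Hausdorff space `X`, every subspace of `C_p(X)` is
metalindelof (the case of the whole space included). No extra set-theoretic hypothesis is used. -/
theorem result (X : Type*) [TopologicalSpace X] [CompactSpace X] [T2Space X]
    [PerfectlyNormalSpace X] (Y : Set (Cp X)) : IsMetalindelof Y :=
  hereditarily_metalindelof Y

end Pool.Agent.Results.MP_3bf391_gt.HereditarilyMetalindelof
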